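import Mathlib

/-! Averages over independent random subsets of a finite set. -/

set_option autoImplicit false

namespace Pool.Agent.Lib.MP_9a669f_co.U

open Finset

variable {α : Type} [DecidableEq α]

/-- Weight of the subset `T` of `P` when `x` is chosen with probability `p x`. -/
def wt (P : Finset α) (p : α → ℝ) (T : Finset α) : ℝ :=
  ∏ x ∈ P, if x ∈ T then p x else 1 - p x

/-- Average of `f` over independent random subsets of `P`. -/
def av (P : Finset α) (p : α → ℝ) (f : Finset α → ℝ) : ℝ :=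
  ∑ T ∈ P.powerset, wt P p T * f T

theorem wt_nonneg {P : Finset α} {p : α → ℝ} (hp : ∀ x ∈ P, 0 ≤ p x ∧ p x ≤ 1) (T : Finset α) :
    0 ≤ wt P p T := by
  refine prod_nonneg fun x hx => ?_
  split_ifs
  · exact (hp x hx).1
  · exact sub_nonneg.2 (hp x hx).2

theorem av_insert {P : Finset α} {a : α} (ha : a ∉ P) (p : α → ℝ) (f : Finset α → ℝ) :
    av (insert a P) p f = (1 - p a) * av P p f + p a * av P p fun T => f (insert a T) := by
  unfold av
  rw [sum_powerset_insert ha, mul_sum, mul_sum]
  congr 1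
  · refine sum_congr rfl fun T hT => ?_
    have h : a ∉ T := fun h => ha (mem_powerset.1 hT h)
    rw [wt, prod_insert ha, if_neg h, wt, mul_assoc]
  · refine sum_congr rfl fun T _ => ?_
    rw [wt, prod_insert ha, if_pos (mem_insert_self _ _), wt, mul_assoc]
    congr 2
    refine prod_congr rfl fun x hx => ?_
    have h : x ≠ a := fun h => ha (h ▸ hx)
    simp [h]

theorem av_const (P : Finset α) (p : α → ℝ) (c : ℝ) : av P p (fun _ => c) = c := by
  induction P using Finset.induction_on with
  | empty => simp [av, wt]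
  | insert a P ha ih =>
    rw [av_insert ha, ih]
    ring

theorem av_congr {P : Finset α} {p : α → ℝ} {f g : Finset α → ℝ} (h : ∀ T ⊆ P, f T = g T) :
    av P p f = av P p g :=
  sum_congr rfl fun T hT => by rw [h T (mem_powerset.1 hT)]

theorem av_mono {P : Finset α} {p : α → ℝ} (hp : ∀ x ∈ P, 0 ≤ p x ∧ p x ≤ 1)
    {f g : Finset α → ℝ} (h : ∀ T ⊆ P, f T ≤ g T) : av P p f ≤ av P p g :=
  sum_le_sum fun T hT => mul_le_mul_of_nonneg_left (h T (mem_powerset.1 hT)) (wt_nonneg hp T)

theorem av_add (P : Finset α) (p : α → ℝ) (f g : Finset α → ℝ) :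
    av P p (fun T => f T + g T) = av P p f + av P p g := by
  simp only [av, mul_add, sum_add_distrib]

theorem av_mul (P : Finset α) (p : α → ℝ) (c : ℝ) (f : Finset α → ℝ) :
    av P p (fun T => c * f T) = c * av P p f := by
  simp only [av, mul_sum]
  exact sum_congr rfl fun _ _ => by ring

theorem av_sum {ι : Type} (P : Finset α) (p : α → ℝ) (s : Finset ι) (f : ι → Finset α → ℝ) :
    av P p (fun T => ∑ i ∈ s, f i T) = ∑ i ∈ s, av P p (f i) := by
  simp only [av, mul_sum]
  exact sum_comm

theorem av_mem {P : Finset α} {a : α} (ha : a ∈ P) (p : α → ℝ) (f : Finset α → ℝ) :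
    av P p (fun T => if a ∈ T then f T else 0) = p a * av P p fun T => f (insert a T) := by
  obtain ⟨Q, hQ, rfl⟩ : ∃ Q, a ∉ Q ∧ P = insert a Q :=
    ⟨P.erase a, notMem_erase _ _, (insert_erase ha).symm⟩
  rw [av_insert hQ, av_insert hQ]
  have h1 : av Q p (fun T => if a ∈ T then f T else 0) = 0 := by
    exact (av_congr fun T hT => if_neg fun h => hQ (hT h)).trans (av_const Q p 0)
  simp only [h1, mem_insert_self, if_true, insert_eq_of_mem (mem_insert_self a _)]
  ring

theorem av_card (P : Finset α) (p : α → ℝ) : av P p (fun T => (T.card : ℝ)) = ∑ x ∈ P, p x := by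
  have h : av P p (fun T => (T.card : ℝ)) =
      av P p fun T => ∑ x ∈ P, if x ∈ T then (1 : ℝ) else 0 := by
    refine av_congr fun T hT => ?_
    rw [sum_boole, filter_mem_eq_inter, inter_eq_right.2 hT]
  rw [h, av_sum]
  refine sum_congr rfl fun x hx => ?_
  rw [av_mem hx p fun _ => 1, av_const, mul_one]

theorem av_eq_zero {P I : Finset α} (hI : I ⊆ P) {p : α → ℝ} (hp : ∀ x ∈ I, p x = 1)
    {f : Finset α → ℝ} (hf : ∀ T, I ⊆ T → f T = 0) : av P p f = 0 := by
  refine sum_eq_zero fun T _ => ?_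
  by_cases h : I ⊆ T
  · rw [hf T h, mul_zero]
  · obtain ⟨x, hx, hx'⟩ := not_subset.1 h
    rw [wt, prod_eq_zero (hI hx), zero_mul]
    rw [if_neg hx', hp x hx, sub_self]

end Pool.Agent.Lib.MP_9a669f_co.U
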