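import Mathlib
import Pool.Agent.Lib.MP_9a669f_co.Main
import Pool.Agent.Lib.MP_9a669f_co.CvMain
import Pool.Agent.Lib.MP_9a669f_co.U.Avg

/-! Angle-monotone graphs on point sets most of whose points are in convex position. -/

set_option autoImplicit false

namespace Pool.Agent.Lib.MP_9a669f_co.U

open Finset Pool.Agent.Lib.MP_9a669f_co.Cv

/-- `E` serves the pairs with first point in `I` whose diametral disc avoids `T`. -/
def Srv (P I T : Finset Pt) (E : Finset (Pt × Pt)) : Prop :=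
  ∀ s ∈ I, ∀ t ∈ P, (∀ w ∈ T, ¬ InD s t w) → Conn E s t

open Classical in
/-- The edges bought when the points of `T'` become hubs after those of `T`. -/
noncomputable def cs (P T T' : Finset Pt) : Finset (Pt × Pt) :=
  (P ×ˢ T').filter fun e => e.1 ≠ e.2 ∧ Del (insert e.1 (insert e.2 T)) e.1 e.2

open Classical in
/-- Indicator of a Delaunay edge. -/
noncomputable def ind (T : Finset Pt) (s x : Pt) : ℝ := if s ≠ x ∧ Del T s x then 1 else 0

variable {P I T T' : Finset Pt}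

theorem ind_nonneg (T : Finset Pt) (s x : Pt) : 0 ≤ ind T s x := by
  unfold ind
  split_ifs <;> norm_num

theorem pay_step (hI : I ⊆ P) (hT' : T' ⊆ P) {k : ℕ} (h : Pay P k (Srv P I T')) :
    Pay P ((cs P T T').card + k) (Srv P I T) := by
  classical
  have h1 : Pay P (cs P T T').card fun E => cs P T T' ⊆ E := by
    refine ⟨cs P T T', fun d hd => ?_, le_rfl, fun _ h => h⟩
    have := mem_product.1 (mem_filter.1 hd).1
    exact ⟨this.1, hT' this.2⟩
  refine (h1.and h).imp le_rfl ?_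
  rintro E ⟨e1, e2⟩ s hs t ht hT
  by_cases hD : ∃ x ∈ T', InD s t x
  · obtain ⟨x, hx, hD⟩ := hD
    have key : ∀ s t, s ∈ P → InD s t x → (∀ w ∈ T, ¬ InD s t w) → Ed E s x := by
      intro s t hs hD hT
      by_cases hsx : s = x
      · exact Or.inl hsx
      refine Or.inr (Or.inl (e1 ?_))
      exact mem_filter.2 ⟨mem_product.2 ⟨hs, hx⟩, hsx, del_of_inD hD hsx hT⟩
    refine Conn.hop (key s t (hI hs) hD hT) (key t s ht hD.symm fun w hw h => hT w hw h.symm) ?_
    simp only [InD] at hD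
    simp only [dot, Prod.fst_sub, Prod.snd_sub]
    linarith
  · exact e2 s hs t ht fun w hw h => hD ⟨w, hw, h⟩

theorem pay_zero (h : I ⊆ T) : Pay P 0 (Srv P I T) :=
  Pay.triv fun _ s hs t _ hT => (hT s (h hs) (inD_left s t)).elim

/-- The least number of edges serving the pairs left by the hubs `T`. -/
noncomputable def vl (P I T : Finset Pt) : ℕ := sInf {k | Pay P k (Srv P I T)}

theorem pay_vl (hI : I ⊆ P) (T : Finset Pt) : Pay P (vl P I T) (Srv P I T) :=
  Nat.sInf_mem (s := {k | Pay P k (Srv P I T)}) ⟨_, pay_step hI Subset.rfl (pay_zero hI)⟩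

theorem vl_zero (h : I ⊆ T) : vl P I T = 0 := Nat.le_zero.1 (Nat.sInf_le (pay_zero h))

theorem vl_step (hI : I ⊆ P) (hT' : T' ⊆ P) :
    (vl P I T : ℝ) ≤ (cs P T T').card + vl P I T' := by
  exact_mod_cast Nat.sInf_le (pay_step hI hT' (pay_vl hI T'))

theorem card_cs (hT' : T' ⊆ P) : ((cs P T T').card : ℝ) =
    ∑ x ∈ P, if x ∈ T' then ∑ s ∈ P, ind (insert s (insert x T)) s x else 0 := by
  classical
  rw [← sum_filter, filter_mem_eq_inter, inter_eq_right.2 hT', sum_comm, cs, card_filter,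
    sum_product]
  push_cast
  refine sum_congr rfl fun s _ => sum_congr rfl fun x _ => ?_
  unfold ind
  congr

theorem av_cs (p : Pt → ℝ) : av P p (fun T' => ((cs P T T').card : ℝ)) =
    ∑ x ∈ P, ∑ s ∈ P, p x * ind (insert s (insert x T)) s x := by
  rw [av_congr fun T' hT' => card_cs hT', av_sum]
  refine sum_congr rfl fun x hx => ?_
  rw [av_mem hx p fun _ => ∑ s ∈ P, ind (insert s (insert x T)) s x, av_const, mul_sum]

theorem sum_ind (hT : T ⊆ P) :
    (∑ x ∈ P, ∑ s ∈ P, if s ∈ T then (if x ∈ T then ind T s x else 0) else 0) ≤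
      6 * (T.card : ℝ) := by
  classical
  have h1 : (∑ x ∈ P, ∑ s ∈ P, if s ∈ T then (if x ∈ T then ind T s x else 0) else 0) =
      ∑ s ∈ T, ∑ x ∈ T, ind T s x := by
    rw [sum_comm]
    simp only [sum_ite_irrel, sum_const_zero]
    rw [← sum_filter, filter_mem_eq_inter, inter_eq_right.2 hT]
    refine sum_congr rfl fun s _ => ?_
    rw [← sum_filter, filter_mem_eq_inter, inter_eq_right.2 hT]
  have h2 := del_card T
  rw [card_filter, sum_product] at h2
  have h3 := (Nat.cast_le (α := ℝ)).2 h2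
  push_cast at h3
  rw [h1]
  refine le_trans (le_of_eq ?_) h3
  refine sum_congr rfl fun s _ => sum_congr rfl fun x _ => ?_
  unfold ind
  congr

theorem av_del {p : Pt → ℝ} (hp : ∀ x ∈ P, 0 ≤ p x ∧ p x ≤ 1) :
    ∑ x ∈ P, ∑ s ∈ P, p s * p x * av P p (fun T => ind (insert s (insert x T)) s x) ≤
      6 * ∑ x ∈ P, p x := by
  rw [← av_card P p, ← av_mul]
  refine le_trans (le_of_eq ?_) (av_mono hp fun T hT => sum_ind hT)
  rw [av_sum]
  refine sum_congr rfl fun x hx => ?_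
  rw [av_sum]
  refine sum_congr rfl fun s hs => ?_
  by_cases hsx : s = x
  · subst hsx
    simp [ind, av_const]
  rw [av_mem hs p fun T => if x ∈ T then ind T s x else 0, mul_assoc,
    ← av_mem hx p fun T => ind (insert s T) s x]
  congr 1
  refine av_congr fun T _ => ?_
  simp [Ne.symm hsx]

theorem vl_le_av (hI : I ⊆ P) {p : Pt → ℝ} (hp : ∀ x ∈ P, 0 ≤ p x ∧ p x ≤ 1) (T : Finset Pt) :
    (vl P I T : ℝ) ≤ av P p (fun T' => ((cs P T T').card : ℝ)) +
      av P p fun T' => (vl P I T' : ℝ) := by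
  rw [← av_add]
  exact (av_const P p _).ge.trans (av_mono hp fun T' hT' => vl_step hI hT')

theorem level (hI : I ⊆ P) {p p' : Pt → ℝ} (hp : ∀ x ∈ P, 0 ≤ p x ∧ p x ≤ 1)
    (hp' : ∀ x ∈ P, 0 ≤ p' x ∧ p' x ≤ 1) {K : ℝ} (hK : 0 ≤ K)
    (h : ∀ s ∈ P, ∀ x ∈ P, p' x ≤ K * (p s * p x)) :
    av P p (fun T => (vl P I T : ℝ)) ≤
      K * (6 * ∑ x ∈ P, p x) + av P p' fun T => (vl P I T : ℝ) := by
  refine (av_mono hp fun T _ => vl_le_av hI hp' T).trans ?_
  rw [av_add, av_const]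
  refine add_le_add_left ?_ _
  refine le_trans ?_ (mul_le_mul_of_nonneg_left (av_del hp) hK)
  simp only [av_cs]
  rw [av_sum, mul_sum]
  refine sum_le_sum fun x hx => ?_
  rw [av_sum, mul_sum]
  refine sum_le_sum fun s hs => ?_
  rw [av_mul, ← mul_assoc]
  refine mul_le_mul_of_nonneg_right (h s hs x hx) ?_
  exact (av_const P p 0).ge.trans (av_mono hp fun T _ => ind_nonneg _ _ _)

theorem first (hI : I ⊆ P) {p : Pt → ℝ} (hp : ∀ x ∈ P, 0 ≤ p x ∧ p x ≤ 1) (T : Finset Pt) :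
    (vl P I T : ℝ) ≤ P.card * ∑ x ∈ P, p x + av P p fun T => (vl P I T : ℝ) := by
  refine (vl_le_av hI hp T).trans (add_le_add_left ?_ _)
  rw [← av_card, ← av_mul]
  refine av_mono hp fun T' _ => ?_
  have : (cs P T T').card ≤ P.card * T'.card := by
    rw [← card_product]
    exact card_le_card fun e he => by
      unfold cs at he
      exact (@mem_filter _ _ (_) _ _).1 he |>.1
  exact_mod_cast this

/-- Sampling probabilities: `r` on `I`, and `r c` elsewhere. -/
noncomputable def pr (I : Finset Pt) (c r : ℝ) (x : Pt) : ℝ := if x ∈ I then r else r * c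

theorem pr_mem {c r : ℝ} (hc : 0 ≤ c) (hc1 : c ≤ 1) (hr : 0 ≤ r) (hr1 : r ≤ 1) (x : Pt) :
    0 ≤ pr I c r x ∧ pr I c r x ≤ 1 := by
  unfold pr
  split_ifs
  · exact ⟨hr, hr1⟩
  · exact ⟨mul_nonneg hr hc, mul_le_one₀ hr1 hc hc1⟩

theorem sum_pr (hI : I ⊆ P) (c r : ℝ) :
    ∑ x ∈ P, pr I c r x = r * (I.card + (P \ I).card * c) := by
  have h1 : ∑ x ∈ P \ I, pr I c r x = ∑ _x ∈ P \ I, r * c :=
    sum_congr rfl fun x hx => if_neg (mem_sdiff.1 hx).2
  have h2 : ∑ x ∈ I, pr I c r x = ∑ _x ∈ I, r := sum_congr rfl fun x hx => if_pos hx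
  rw [← sum_sdiff hI, h1, h2, sum_const, sum_const]
  simp only [nsmul_eq_mul]
  ring

theorem level_pr (hI : I ⊆ P) {c r r' : ℝ} (hc : 0 < c) (hc1 : c ≤ 1) (hr : 0 < r) (hr1 : r ≤ 1)
    (hr' : 0 ≤ r') (hr1' : r' ≤ 1) (h2 : r' ≤ 2 * r) (hm : (I.card : ℝ) = (P \ I).card * c) :
    av P (pr I c r) (fun T => (vl P I T : ℝ)) ≤
      24 * (P \ I).card + av P (pr I c r') fun T => (vl P I T : ℝ) := by
  refine (level hI (p := pr I c r) (p' := pr I c r') (K := 2 / (r * c))
    (fun x _ => pr_mem hc.le hc1 hr.le hr1 x)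
    (fun x _ => pr_mem hc.le hc1 hr' hr1' x) (by positivity) fun s _ x _ => ?_).trans
    (le_of_eq ?_)
  · have h3 : r * c ≤ pr I c r s := by
      unfold pr
      split_ifs
      · exact mul_le_of_le_one_right hr.le hc1
      · exact le_rfl
    have h4 : pr I c r' x ≤ 2 * pr I c r x := by
      unfold pr
      split_ifs
      · exact h2
      · nlinarith
    have h5 := (pr_mem (I := I) hc.le hc1 hr.le hr1 x).1
    rw [div_mul_eq_mul_div, le_div_iff₀ (by positivity)]
    nlinarith [mul_le_mul_of_nonneg_right h3 h5, mul_pos hr hc]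
  · rw [sum_pr hI, hm]
    congr 1
    field_simp
    ring

theorem vl_empty (hI : I ⊆ P) (h1 : 1 ≤ I.card) (h2 : I.card ≤ (P \ I).card) {L : ℕ}
    (hL : I.card ≤ 2 ^ L) : (vl P I ∅ : ℝ) ≤ 2 * P.card + 24 * (P \ I).card * L := by
  have m0 : (0 : ℝ) < I.card := by exact_mod_cast h1
  have mh : (I.card : ℝ) ≤ (P \ I).card := by exact_mod_cast h2
  have h0 : (0 : ℝ) < (P \ I).card := m0.trans_le mh
  obtain ⟨c, hc⟩ : ∃ c : ℝ, c = I.card / (P \ I).card := ⟨_, rfl⟩
  have c0 : 0 < c := hc ▸ div_pos m0 h0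
  have c1 : c ≤ 1 := hc ▸ (div_le_one h0).2 mh
  have hm : (I.card : ℝ) = (P \ I).card * c := by rw [hc, mul_div_cancel₀ _ h0.ne']
  let r : ℕ → ℝ := fun j => min 1 (2 ^ j / I.card)
  have r0 : ∀ j, 0 < r j := fun j => lt_min one_pos (div_pos (pow_pos two_pos j) m0)
  have r1 : ∀ j, r j ≤ 1 := fun j => min_le_left _ _
  have r2 : ∀ j, r (j + 1) ≤ 2 * r j := by
    intro j
    rw [mul_min_of_nonneg _ _ (by norm_num : (0 : ℝ) ≤ 2)]
    refine min_le_min (by norm_num) (le_of_eq ?_)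
    ring
  have key : ∀ j : ℕ, av P (pr I c (r 0)) (fun T => (vl P I T : ℝ)) ≤
      24 * (P \ I).card * j + av P (pr I c (r j)) fun T => (vl P I T : ℝ) := by
    intro j
    induction j with
    | zero => simp
    | succ j ih =>
      have := level_pr hI c0 c1 (r0 j) (r1 j) (r0 (j + 1)).le (r1 (j + 1)) (r2 j) hm
      push_cast
      linarith
  have rL : r L = 1 := min_eq_left ((one_le_div m0).2 (by exact_mod_cast hL))
  have last : av P (pr I c (r L)) (fun T => (vl P I T : ℝ)) = 0 :=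
    av_eq_zero hI (fun x hx => by rw [pr, if_pos hx, rL]) fun T hT => by
      rw [vl_zero hT, Nat.cast_zero]
  have f := first hI (fun x _ => pr_mem (I := I) c0.le c1 (r0 0).le (r1 0) x) ∅
  have k := key L
  have s : r 0 * (I.card + (P \ I).card * c) ≤ 2 := by
    rw [← hm]
    have : r 0 ≤ 2 ^ 0 / I.card := min_le_right _ _
    rw [le_div_iff₀ m0] at this
    linarith
  rw [sum_pr hI] at f
  nlinarith [mul_le_mul_of_nonneg_left s (Nat.cast_nonneg (α := ℝ) P.card)]

theorem log_bound {m : ℕ} (hm : 1 ≤ m) :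
    4 + 24 * (Nat.clog 2 m : ℝ) ≤ 58 * Real.log (m + 1) := by
  have h1 : 2 ^ (2 * Nat.clog 2 m) ≤ (m + 1) ^ 3 := by
    rcases hm.eq_or_lt with rfl | h
    · simp
    have h2 := Nat.pow_pred_clog_lt_self (b := 2) (by norm_num) h
    have h3 := Nat.clog_pos (b := 2) (by norm_num) h
    obtain ⟨L, hL⟩ : ∃ L, Nat.clog 2 m = L + 1 := ⟨_, (Nat.succ_pred_eq_of_pos h3).symm⟩
    rw [hL] at h2 ⊢
    simp only [Nat.pred_eq_sub_one, Nat.add_sub_cancel] at h2
    have h4 : (2 ^ L + 2) ^ 3 ≤ (m + 1) ^ 3 := Nat.pow_le_pow_left (by omega) 3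
    refine le_trans ?_ h4
    have h5 : 2 ^ (2 * (L + 1)) = 4 * (2 ^ L) ^ 2 := by ring
    rw [h5]
    nlinarith [Nat.zero_le (2 ^ L), Nat.zero_le ((2 ^ L) ^ 2), Nat.zero_le ((2 ^ L) ^ 3)]
  have h2 : ((2 : ℝ)) ^ (2 * Nat.clog 2 m) ≤ ((m : ℝ) + 1) ^ 3 := by exact_mod_cast h1
  have h3 := Real.log_le_log (by positivity) h2
  rw [Real.log_pow, Real.log_pow] at h3
  have h4 : Real.log 2 ≤ Real.log (m + 1) :=
    Real.log_le_log (by norm_num) (by have : (1 : ℝ) ≤ m := by exact_mod_cast hm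
                                      linarith)
  have h5 := Real.log_two_gt_d9
  have h6 : (0 : ℝ) ≤ Nat.clog 2 m := Nat.cast_nonneg _
  push_cast at h3
  nlinarith

theorem near_convex (P B : Finset Pt) (hB : B ⊆ P)
    (h : ConvexIndependent ℝ (Subtype.val : B → Pt)) :
    ∃ G : SimpleGraph P, AngleMonotone (Real.pi / 2) P G ∧
      (G.edgeSet.ncard : ℝ) ≤ 112 * B.card + 58 * B.card * Real.log ((P \ B).card + 1) +
        6 * (P \ B).card * Real.log (P \ B).card := by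
  have hI : P \ B ⊆ P := sdiff_subset
  have hBB : P \ (P \ B) = B := Finset.sdiff_sdiff_eq_self hB
  have hn : (P \ B).card + B.card = P.card := card_sdiff_add_card_eq_card hB
  have n0 : (0 : ℝ) ≤ P.card := Nat.cast_nonneg _
  have b0 : (0 : ℝ) ≤ B.card := Nat.cast_nonneg _
  have l0 : 0 ≤ Real.log ((P \ B).card + 1) :=
    Real.log_nonneg (by have : (0 : ℝ) ≤ (P \ B).card := Nat.cast_nonneg _
                        linarith)
  by_cases hc : B.card < (P \ B).card
  · obtain ⟨G, hG, hG'⟩ := exists_sparse P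
    refine ⟨G, hG, hG'.trans ?_⟩
    have h1 : P.card ≤ ((P \ B).card + 1) ^ 2 := by nlinarith
    have h2 : (P.card : ℝ) ≤ (((P \ B).card : ℝ) + 1) ^ 2 := by exact_mod_cast h1
    have h3 := Real.log_le_log (by exact_mod_cast (by omega : 0 < P.card)) h2
    rw [Real.log_pow] at h3
    push_cast at h3
    have m0 : (0 : ℝ) < (P \ B).card := by exact_mod_cast (by omega : 0 < (P \ B).card)
    have h4 : (P.card : ℝ) = (P \ B).card + B.card := by exact_mod_cast hn.symm
    have h5 : Real.log P.card - Real.log (P \ B).card ≤ P.card / (P \ B).card - 1 := by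
      rw [← Real.log_div (by linarith) m0.ne']
      exact Real.log_le_sub_one_of_pos (div_pos (by linarith) m0)
    have h6 := mul_le_mul_of_nonneg_left h5 m0.le
    rw [mul_sub ((P \ B).card : ℝ) (P.card / (P \ B).card), mul_div_cancel₀ _ m0.ne'] at h6
    have h7 : (P.card : ℝ) * Real.log P.card =
        (P \ B).card * Real.log P.card + B.card * Real.log P.card := by
      rw [← add_mul, ← h4]
    nlinarith [mul_le_mul_of_nonneg_left h3 b0, mul_nonneg b0 l0]
  obtain ⟨n, hn'⟩ := exists_nrm h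
  have p1 : Pay P (112 * B.card) fun E => ∀ a ∈ B, ∀ b ∈ B, Conn E a b := by
    obtain ⟨E, e1, e2, e3⟩ := hn'.pay
    exact ⟨E, fun d hd => ⟨hB (e1 d hd).1, hB (e1 d hd).2⟩, e2, e3⟩
  have p2 : Pay P (112 * B.card + vl P (P \ B) ∅) fun E => ∀ a ∈ P, ∀ b ∈ P, Conn E a b := by
    refine (p1.and (pay_vl hI ∅)).imp le_rfl ?_
    rintro E ⟨e1, e2⟩ a ha b hb
    by_cases ha' : a ∈ B
    · by_cases hb' : b ∈ B
      · exact e1 a ha' b hb'
      · exact (e2 b (mem_sdiff.2 ⟨hb, hb'⟩) a ha (by simp)).symm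
    · exact e2 a (mem_sdiff.2 ⟨ha, ha'⟩) b hb (by simp)
  obtain ⟨G, hG, hG'⟩ := graph_of_pay p2
  refine ⟨G, hG, (Nat.cast_le.2 hG').trans ?_⟩
  push_cast
  have l1 : 0 ≤ ((P \ B).card : ℝ) * Real.log (P \ B).card :=
    mul_nonneg (Nat.cast_nonneg _) (Real.log_natCast_nonneg _)
  rcases Nat.eq_zero_or_pos (P \ B).card with h0 | h0
  · rw [vl_zero (by rw [card_eq_zero.1 h0]), Nat.cast_zero]
    nlinarith [mul_nonneg b0 l0]
  have h1 := vl_empty hI h0 (by rw [hBB]; omega) (Nat.le_pow_clog (b := 2) (by norm_num) _)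
  rw [hBB] at h1
  have h2 := log_bound h0
  have h3 : (P.card : ℝ) ≤ 2 * B.card := by exact_mod_cast (by omega : P.card ≤ 2 * B.card)
  nlinarith [mul_le_mul_of_nonneg_left h2 b0]

end Pool.Agent.Lib.MP_9a669f_co.U
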