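import Mathlib
import Pool.Agent.Results.MP_9a669f_co.NearConvex

/-! The statement of the hand-in NearConvex contains, word for word, the linear bound for convex
position and the bound `6 n log n` for all point sets. -/

set_option autoImplicit false

namespace Pool.Agent.Lib.MP_9a669f_co.U

open Pool.Agent.Results.MP_9a669f_co.NearConvex

theorem impl_convex (P : Finset (ℝ × ℝ)) (h : ConvexIndependent ℝ (fun p : P => (p : ℝ × ℝ))) :
    ∃ G : SimpleGraph P, AngleMonotone (Real.pi / 2) P G ∧ G.edgeSet.ncard ≤ 112 * P.card := by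
  obtain ⟨G, h1, h2⟩ := result P P subset_rfl h
  refine ⟨G, h1, ?_⟩
  simp only [Finset.sdiff_self, Finset.card_empty, Nat.cast_zero, zero_add, Real.log_one, mul_zero,
    zero_mul, add_zero] at h2
  exact_mod_cast h2

theorem impl_nlogn (P : Finset (ℝ × ℝ)) : ∃ G : SimpleGraph P,
    AngleMonotone (Real.pi / 2) P G ∧ (G.edgeSet.ncard : ℝ) ≤ 6 * P.card * Real.log P.card := by
  obtain ⟨G, h1, h2⟩ :=
    result P ∅ (Finset.empty_subset _) fun _ x => (Finset.notMem_empty _ x.2).elim
  exact ⟨G, h1, by simpa using h2⟩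

end Pool.Agent.Lib.MP_9a669f_co.U
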